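import Pool.Agent.Helper10.RK.GoalsH
import Pool.Agent.Helper19.SP.HODC
import Pool.Agent.Helper95.RK.Basics

/-!
# RK-HODCK: bounded cocycles are coboundaries of basic pluriharmonic functions
-/

open Complex Metric Set Filter Topology MeasureTheory
open scoped ContDiff ComplexConjugate ComplexOrder Manifold Matrix

namespace Pool.Agent.Helper80.RK

open Pool.Agent.Helper95.Lin Pool.Agent.Helper16.Abund Pool.Agent.Helper92.Orb
open Pool.Agent.Helper10.SP Pool.Agent.Helper95.RK Pool.Agent.Helper36.RK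
open Pool.Agent.Helper10.RK

universe u

theorem hodck (hWCH : S_WCH) (hLFIN : S_LFIN.{u}) (hASI : S_ASI.{u}) (hPUE : S_PUE.{u})
    (hHODG : S_HODG.{u}) (hLIOU : S_LIOUK) : S_HODCK.{u} := by
  intro b k N G _ c R Rel P Φ Hf C H hF cc hcc
  have hE : Et (tubeK k (Bd c 2)) Rel := hF.ket.et
  obtain ⟨κ, hκ⟩ := hPUE (tubeK k (Bd c 2)) Rel hE
  set v : Cn (b + k) → ℝ := Pool.Agent.Helper19.SP.vav Rel κ cc with hv
  have hvs : ContDiffOn ℝ ∞ v (tubeK k (Bd c 2)) :=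
    Pool.Agent.Helper19.SP.vav_smooth hLFIN hE hκ hcc
  obtain ⟨φ, hφ, hlev⟩ := hHODG (tubeK k (Bd c 2)) Rel H hF.ket v hvs
    (Pool.Agent.Helper19.SP.vav_dinv hLFIN hASI hE hκ hcc)
  have hD : IsOpen (Bd c 2) := isOpen_iUnion fun i => isOpen_ball
  set u₁ : Cn (b + k) → ℝ := fun y => v y - φ y with hu₁
  have hu₁s : ContDiffOn ℝ ∞ u₁ (tubeK k (Bd c 2)) := hvs.sub hφ.1
  obtain ⟨B₁, hB₁⟩ := Pool.Agent.Helper19.SP.vav_bdd hLFIN hE hκ hcc
  obtain ⟨B₂, hB₂⟩ := Pool.Agent.Helper19.SP.inv_bdd hE hφ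
  have hind := hLIOU (Bd c 2) hD u₁ hu₁s hlev ⟨B₁ + B₂, fun x hx =>
    (abs_sub _ _).trans (add_le_add (hB₁ x hx) (hB₂ x hx))⟩
  set inc : Cn b →L[ℂ] Cn (b + k) := (ptL b k).comp (ContinuousLinearMap.inl ℂ (Cn b) (Cn k))
    with hinc
  have hinc_apply : ∀ z, inc z = ptK z 0 := fun z => rfl
  have hmaps : MapsTo inc (Bd c 2) (tubeK k (Bd c 2)) := by
    intro z hz
    show base _ ∈ Bd c 2
    rw [hinc_apply, base_ptK]
    exact hz
  refine ⟨fun z => u₁ (inc z), ?_, ?_, ?_⟩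
  · refine hu₁s.comp ?_ hmaps
    exact (inc.restrictScalars ℝ).contDiff.contDiffOn
  · intro z hz e
    have h1 := (((hWCH.1 (tubeK k (Bd c 2)) (Bd c 2) hE.isOpen hD inc
      inc.differentiable.differentiableOn hmaps).2 u₁ hu₁s z hz).1 e)
    have h2 : (fun z => u₁ (inc z)) = u₁ ∘ inc := rfl
    rw [h2, h1]
    exact hlev _ (hmaps hz) _
  · intro γ x y hxy
    have hm := hE.mem _ _ _ hxy
    have key : ∀ x ∈ tubeK k (Bd c 2), u₁ (inc (base x)) = u₁ x := by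
      intro x hx
      rw [hinc_apply, hind (base x) hx 0 (fib x), ptK_base_fib]
    simp only []
    rw [key x hm.1, key y hm.2]
    simp only [hu₁]
    rw [hφ.2 γ x y hxy, ← Pool.Agent.Helper19.SP.vav_rel hLFIN hASI hE hκ hcc hxy]
    ring

end Pool.Agent.Helper80.RK
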