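import Pool.Agent.Helper95.RK.GoalsC
import Pool.Agent.Helper95.RK.Basics

/-! # Packet RK LMAPK: the leaf map (adapted from Helper27/SP/LMAP.lean) -/

open Complex Metric Set Filter Topology MeasureTheory
open scoped ContDiff ComplexConjugate ComplexOrder Manifold Matrix

namespace Pool.Agent.Helper80.RK

open Pool.Agent.Helper95.Lin Pool.Agent.Helper16.Abund Pool.Agent.Helper92.Orb
open Pool.Agent.Helper10.SP Pool.Agent.Helper95.RK

universe u v

section man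

variable {n : ℕ} {M : Type v} [TopologicalSpace M] [ChartedSpace (Fin n → ℂ) M]

lemma par_mono {ψ : Cn n → M} {V V' : Set (Cn n)} (h : Par n ψ V) (hV : IsOpen V')
    (hs : V' ⊆ V) : Par n ψ V' :=
  ⟨⟨hV, h.1.2.mono hs⟩, fun z hz => h.2 z (hs hz)⟩

lemma jac_congr {ψ ψ' : Cn n → M} {x : Cn n} (h : ψ =ᶠ[𝓝 x] ψ') : jac n ψ x = jac n ψ' x := by
  unfold jac
  rw [h.mfderiv_eq]

lemma dvec_congr {ψ ψ' : Cn n → M} {x : Cn n} (h : ψ =ᶠ[𝓝 x] ψ') (u : Cn n) :
    dvec n ψ x u = dvec n ψ' x u := by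
  unfold dvec dmap
  rw [h.mfderiv_eq]

lemma pm_congr (q : M → Matrix (Fin n) (Fin n) ℂ) {ψ ψ' : Cn n → M} {x : Cn n}
    (h : ψ =ᶠ[𝓝 x] ψ') : pm n q ψ x = pm n q ψ' x := by
  unfold pm
  ext i j
  simp only [Matrix.of_apply]
  rw [dvec_congr h, dvec_congr h, h.eq_of_nhds]

lemma lpot_congr (v : M → ℝ) {ψ ψ' : Cn n → M} {x : Cn n} (h : ψ =ᶠ[𝓝 x] ψ') :
    lpot n v ψ x = lpot n v ψ' x := by
  unfold lpot
  rw [jac_congr h, h.eq_of_nhds]

lemma par_local {ψ : Cn n → M} {V : Set (Cn n)} (hV : IsOpen V)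
    (h : ∀ x ∈ V, ∃ (ψ' : Cn n → M) (V' : Set (Cn n)), Par n ψ' V' ∧ x ∈ V' ∧ ψ =ᶠ[𝓝 x] ψ') :
    Par n ψ V := by
  refine ⟨⟨hV, fun x hx => ?_⟩, fun x hx => ?_⟩
  · obtain ⟨ψ', V', hp, hxV, he⟩ := h x hx
    have h1 : MDifferentiableAt 𝓘(ℂ, Fin n → ℂ) 𝓘(ℂ, Fin n → ℂ) ψ' x :=
      (hp.1.2 x hxV).mdifferentiableAt (hp.1.1.mem_nhds hxV)
    exact (h1.congr_of_eventuallyEq he).mdifferentiableWithinAt
  · obtain ⟨ψ', V', hp, hxV, he⟩ := h x hx
    rw [jac_congr he]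
    exact hp.2 x hxV

lemma hermi_single (A : Matrix (Fin n) (Fin n) ℂ) (i j : Fin n) :
    hermi A (Pi.single i 1) (Pi.single j 1) = A i j := by
  unfold hermi
  rw [Finset.sum_eq_single i, Finset.sum_eq_single j]
  · simp
  · intro m _ hm
    simp [Pi.single_eq_of_ne hm]
  · intro h
    exact absurd (Finset.mem_univ _) h
  · intro l _ hl
    simp [Pi.single_eq_of_ne hl]
  · intro h
    exact absurd (Finset.mem_univ _) h

end man

lemma gm_congr {b k : ℕ} {M : Type v} [TopologicalSpace M] [ChartedSpace (Fin (b + k) → ℂ) M]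
    (q : M → Matrix (Fin (b + k)) (Fin (b + k)) ℂ) {ψ ψ' : Cn (b + k) → M} {x : Cn (b + k)}
    (h : ψ =ᶠ[𝓝 x] ψ') : gm q ψ x = gm q ψ' x := by
  unfold gm
  rw [pm_congr q h]

section levs

variable {b : ℕ}

lemma lev_congr {f g : Cn b → ℝ} {x : Cn b} (h : f =ᶠ[𝓝 x] g) (e : Cn b) :
    lev f x e = lev g x e := by
  have h1 : ∀ u : Cn b, (fun y => fderiv ℝ f y u) =ᶠ[𝓝 x] (fun y => fderiv ℝ g y u) := by
    intro u
    filter_upwards [h.eventuallyEq_nhds] with y hy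
    rw [hy.fderiv_eq]
  unfold lev hess
  rw [(h1 e).fderiv_eq, (h1 (I • e)).fderiv_eq]

lemma lev_shift (f : Cn b → ℝ) (c x e : Cn b) :
    lev (fun y => f (y - c)) x e = lev f (x - c) e := by
  have h1 : ∀ u : Cn b, (fun y => fderiv ℝ (fun y => f (y - c)) y u) =
      fun y => (fun y => fderiv ℝ f y u) (y - c) := by
    intro u
    funext y
    rw [fderiv_comp_sub]
  have h2 : ∀ g : Cn b → ℝ, fderiv ℝ (fun y => g (y - c)) x = fderiv ℝ g (x - c) := by
    intro g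
    rw [fderiv_comp_sub]
  unfold lev hess
  rw [h1, h1, h2 (fun y => fderiv ℝ f y e), h2 (fun y => fderiv ℝ f y (I • e))]

end levs

/-- The iteration. -/
lemma iter {b k : ℕ} {M : Type v} [TopologicalSpace M] [ChartedSpace (Fin (b + k) → ℂ) M]
    (v : M → ℝ) (q : M → Matrix (Fin (b + k)) (Fin (b + k)) ℂ) (Ψ : Cn b → ℝ)
    (Hf : Cn b → Matrix (Fin k) (Fin k) ℂ) (r₀ : ℝ) (hr₀ : 0 < r₀) (ψ : Cn (b + k) → M)
    (h0 : SpecK v q (ball 0 5) (ball 0 5) ψ Ψ Hf)
    (hext : ∀ (ρ : ℝ) (χ : Cn (b + k) → M), 0 < ρ → SpecK v q (ball 0 5) (ball 0 ρ) χ Ψ Hf →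
      ∃ χ' : Cn (b + k) → M, SpecK v q (ball 0 5) (ball 0 (ρ + r₀)) χ' Ψ Hf ∧
        EqOn χ' χ (prodK (ball 0 5) (ball 0 ρ))) :
    ∃ E : Cn (b + k) → M, Par (b + k) E (prodK (ball (0 : Cn b) 5) (univ : Set (Cn k))) ∧
      (∀ x ∈ prodK (ball (0 : Cn b) 5) (univ : Set (Cn k)), lpot (b + k) v E x = Ψ (base x)) ∧
      (∀ x ∈ prodK (ball (0 : Cn b) 5) (univ : Set (Cn k)), gm q E x = Hf (base x)) ∧
      EqOn E ψ (prodK (ball 0 5) (ball 0 5)) := by
  classical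
  choose! f hf using hext
  let F : ℕ → (Cn (b + k) → M) := fun n => Nat.rec ψ (fun m χ => f (5 + m * r₀) χ) n
  have hF0 : F 0 = ψ := rfl
  have hFs : ∀ m, F (m + 1) = f (5 + m * r₀) (F m) := fun m => rfl
  have hpos : ∀ m : ℕ, (0 : ℝ) < 5 + m * r₀ := by
    intro m
    positivity
  have hF : ∀ m : ℕ, SpecK v q (ball 0 5) (ball 0 (5 + m * r₀)) (F m) Ψ Hf := by
    intro m
    induction m with
    | zero => simpa [hF0] using h0
    | succ m ih =>
      have := (hf (5 + m * r₀) (F m) (hpos m) ih).1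
      rw [hFs]
      have e : (5 : ℝ) + ((m + 1 : ℕ) : ℝ) * r₀ = 5 + m * r₀ + r₀ := by push_cast; ring
      rw [e]
      exact this
  have hE1 : ∀ m : ℕ, EqOn (F (m + 1)) (F m)
      (prodK (ball (0 : Cn b) 5) (ball (0 : Cn k) (5 + m * r₀))) := by
    intro m
    rw [hFs]
    exact (hf (5 + m * r₀) (F m) (hpos m) (hF m)).2
  have hE2 : ∀ m j : ℕ, EqOn (F (m + j)) (F m)
      (prodK (ball (0 : Cn b) 5) (ball (0 : Cn k) (5 + m * r₀))) := by
    intro m j
    induction j with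
    | zero => intro x _; rfl
    | succ j ih =>
      intro x hx
      rw [← ih hx, ← add_assoc]
      refine hE1 (m + j) ⟨hx.1, ?_⟩
      have h2 := hx.2
      rw [mem_ball_zero_iff] at h2 ⊢
      refine h2.trans_le ?_
      push_cast
      have : (0 : ℝ) ≤ j * r₀ := by positivity
      linarith
  have hE3 : ∀ m j : ℕ, ∀ x ∈ prodK (ball (0 : Cn b) 5) (ball (0 : Cn k) (5 + m * r₀)),
      x ∈ prodK (ball (0 : Cn b) 5) (ball (0 : Cn k) (5 + j * r₀)) → F m x = F j x := by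
    intro m j x hx hx'
    rcases le_total m j with h | h
    · obtain ⟨i, rfl⟩ := Nat.exists_eq_add_of_le h
      exact (hE2 m i hx).symm
    · obtain ⟨i, rfl⟩ := Nat.exists_eq_add_of_le h
      exact hE2 j i hx'
  -- the index
  let ix : Cn (b + k) → ℕ := fun x => ⌈‖fib x‖ / r₀⌉₊
  have hix : ∀ x ∈ prodK (ball (0 : Cn b) 5) (univ : Set (Cn k)),
      x ∈ prodK (ball (0 : Cn b) 5) (ball (0 : Cn k) (5 + (ix x : ℕ) * r₀)) := by
    intro x hx
    refine ⟨hx.1, ?_⟩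
    rw [mem_ball_zero_iff]
    have h1 : ‖fib x‖ / r₀ ≤ (ix x : ℕ) := Nat.le_ceil _
    rw [div_le_iff₀ hr₀] at h1
    linarith
  have hEE : ∀ m : ℕ, ∀ x ∈ prodK (ball (0 : Cn b) 5) (ball (0 : Cn k) (5 + m * r₀)),
      F (ix x) x = F m x := by
    intro m x hx
    exact hE3 _ _ x (hix x ⟨hx.1, mem_univ _⟩) hx
  have hloc : ∀ x ∈ prodK (ball (0 : Cn b) 5) (univ : Set (Cn k)),
      (fun y => F (ix y) y) =ᶠ[𝓝 x] F (ix x) := by
    intro x hx
    have hop : IsOpen (prodK (ball (0 : Cn b) 5) (ball (0 : Cn k) (5 + (ix x : ℕ) * r₀))) :=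
      isOpen_prodK isOpen_ball isOpen_ball
    filter_upwards [hop.mem_nhds (hix x hx)] with y hy
    exact hEE _ y hy
  refine ⟨fun y => F (ix y) y, ?_, ?_, ?_, ?_⟩
  · refine par_local (isOpen_prodK isOpen_ball isOpen_univ) (fun x hx => ?_)
    exact ⟨F (ix x), _, (hF (ix x)).par, hix x hx, hloc x hx⟩
  · intro x hx
    rw [lpot_congr v (hloc x hx)]
    exact (hF (ix x)).pot x (hix x hx)
  · intro x hx
    rw [gm_congr q (hloc x hx)]
    exact (hF (ix x)).leaf x (hix x hx)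
  · intro x hx
    have := hEE 0 x (by simpa using hx)
    rw [hF0] at this
    exact this

theorem lmapk (hFIN : S_FINSPK.{u, v}) (hEXT : S_EXTSK.{u, v}) (hPAR : S_PARBK.{u, v})
    (hPMB : S_PMB.{u, v}) : S_LMAPK.{u, v} := by
  classical
  intro b kk G M _ _ _ _ _ _ _ h q v hb hD hF
  obtain ⟨k, ψ, Ψ, Hf, hk, hsp, hcov⟩ := hFIN hb hD hF
  obtain ⟨r₀, hr₀, hext⟩ := hEXT hD hF k ψ Ψ Hf hsp hcov
  have h0 : ∀ i, SpecK v q (ball 0 5) (ball 0 5) (ψ i) (Ψ i) (Hf i) := by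
    intro i
    have hi := hsp i
    have s1 : (ball (0 : Cn b) 5) ⊆ ball 0 6 := ball_subset_ball (by norm_num)
    have s2 : (ball (0 : Cn kk) 5) ⊆ ball 0 6 := ball_subset_ball (by norm_num)
    exact ⟨par_mono hi.par (isOpen_prodK isOpen_ball isOpen_ball)
        (fun x hx => ⟨s1 hx.1, s2 hx.2⟩),
      hi.smP.mono s1, fun z hz => hi.pos z (s1 hz), fun x hx => hi.pot x ⟨s1 hx.1, s2 hx.2⟩,
      fun i' j' => (hi.smH i' j').mono s1, fun z hz => hi.posH z (s1 hz),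
      fun x hx => hi.leaf x ⟨s1 hx.1, s2 hx.2⟩⟩
  have hit := fun i => iter v q (Ψ i) (Hf i) r₀ hr₀ (ψ i) (h0 i) (hext i)
  choose E hE1 hE2 hE4 hE3 using hit
  -- the centres
  let c : Fin k → Cn b := fun i _ => ((100 * (i : ℕ) : ℝ) : ℂ)
  have : Nonempty (Fin b) := ⟨⟨0, hb⟩⟩
  have hsep : ∀ i j, i ≠ j → 10 * (5 : ℝ) ≤ ‖c i - c j‖ := by
    intro i j hij
    have h1 : ‖(c i - c j) ⟨0, hb⟩‖ ≤ ‖c i - c j‖ := norm_le_pi_norm (c i - c j) ⟨0, hb⟩
    refine le_trans ?_ h1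
    have h2 : (c i - c j) ⟨0, hb⟩ = (((100 * (i : ℕ) : ℝ) - (100 * (j : ℕ) : ℝ) : ℝ) : ℂ) := by
      simp [c]
    rw [h2, Complex.norm_real, Real.norm_eq_abs]
    have h3 : (1 : ℝ) ≤ |((i : ℕ) : ℝ) - ((j : ℕ) : ℝ)| := by
      have h4 : ((i : ℕ) : ℤ) ≠ ((j : ℕ) : ℤ) := by
        intro h5
        apply hij
        exact Fin.ext (by exact_mod_cast h5)
      have h5 : (1 : ℤ) ≤ |((i : ℕ) : ℤ) - ((j : ℕ) : ℤ)| :=
        Int.one_le_abs (sub_ne_zero.2 h4)
      exact_mod_cast h5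
    have h6 : (100 * ((i : ℕ) : ℝ) - 100 * ((j : ℕ) : ℝ)) =
        100 * (((i : ℕ) : ℝ) - ((j : ℕ) : ℝ)) := by ring
    rw [h6, abs_mul, abs_of_pos (by norm_num : (0 : ℝ) < 100)]
    linarith
  have huniq : ∀ (z : Cn b) i j, z ∈ ball (c i) 5 → z ∈ ball (c j) 5 → i = j := by
    intro z i j hi hj
    by_contra hij
    have h1 := hsep i j hij
    rw [mem_ball, dist_eq_norm] at hi hj
    have h2 : c i - c j = (z - c j) - (z - c i) := by abel
    have h3 : ‖c i - c j‖ ≤ ‖z - c j‖ + ‖z - c i‖ := by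
      rw [h2]; exact norm_sub_le _ _
    linarith
  -- the index of a point
  let ix : Cn b → Fin k := fun z => if h : ∃ i, z ∈ ball (c i) 5 then h.choose else ⟨0, hk⟩
  have hix : ∀ (z : Cn b) i, z ∈ ball (c i) 5 → ix z = i := by
    intro z i hz
    have hex : ∃ i, z ∈ ball (c i) 5 := ⟨i, hz⟩
    have h1 : ix z = hex.choose := by
      simp only [ix]
      rw [dif_pos hex]
    rw [h1]
    exact huniq z _ _ hex.choose_spec hz
  let EE : Cn (b + kk) → M := fun x => E (ix (base x)) (x - ptK (c (ix (base x))) 0)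
  let Φ : Cn b → ℝ := fun z => Ψ (ix z) (z - c (ix z))
  let HH : Cn b → Matrix (Fin kk) (Fin kk) ℂ := fun z => Hf (ix z) (z - c (ix z))
  have hbase : ∀ (i : Fin k) (x : Cn (b + kk)), base (x - ptK (c i) (0 : Cn kk)) =
      base x - c i := by
    intro i x
    rw [base_sub, base_ptK]
  have hfib : ∀ (i : Fin k) (x : Cn (b + kk)), fib (x - ptK (c i) (0 : Cn kk)) = fib x := by
    intro i x
    rw [fib_sub, fib_ptK, sub_zero]
  have hmemball : ∀ (i : Fin k) (z : Cn b) (r : ℝ), z ∈ ball (c i) r ↔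
      z - c i ∈ ball (0 : Cn b) r := by
    intro i z r
    rw [mem_ball, dist_eq_norm, mem_ball_zero_iff]
  have hEEloc : ∀ (x : Cn (b + kk)) i, base x ∈ ball (c i) 5 →
      EE =ᶠ[𝓝 x] (E i ∘ fun y => y - ptK (c i) 0) := by
    intro x i hx
    have hop : IsOpen (tubeK kk (ball (c i) 5)) := isOpen_tubeK isOpen_ball
    filter_upwards [hop.mem_nhds hx] with y hy
    have : ix (base y) = i := hix _ i hy
    simp only [EE, this, Function.comp]
  have hΦloc : ∀ (z : Cn b) i, z ∈ ball (c i) 5 → Φ =ᶠ[𝓝 z] fun y => Ψ i (y - c i) := by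
    intro z i hz
    filter_upwards [isOpen_ball.mem_nhds hz] with y hy
    have : ix y = i := hix _ i hy
    simp only [Φ, this]
  have hHloc : ∀ (z : Cn b) i, z ∈ ball (c i) 5 → HH =ᶠ[𝓝 z] fun y => Hf i (y - c i) := by
    intro z i hz
    filter_upwards [isOpen_ball.mem_nhds hz] with y hy
    have : ix y = i := hix _ i hy
    simp only [HH, this]
  -- the shifted maps
  have hsh : ∀ i, Par (b + kk) (E i ∘ fun y => y - ptK (c i) 0) (tubeK kk (ball (c i) 5)) ∧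
      (∀ x ∈ tubeK kk (ball (c i) 5), lpot (b + kk) v (E i ∘ fun y => y - ptK (c i) 0) x =
        Ψ i (base x - c i)) ∧
      ∀ x ∈ tubeK kk (ball (c i) 5), gm q (E i ∘ fun y => y - ptK (c i) 0) x =
        Hf i (base x - c i) := by
    intro i
    have hop : IsOpen (tubeK kk (ball (c i) 5)) := isOpen_tubeK isOpen_ball
    have hmaps : MapsTo (fun y : Cn (b + kk) => y - ptK (c i) 0) (tubeK kk (ball (c i) 5))
        (prodK (ball (0 : Cn b) 5) univ) := by
      intro x hx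
      refine ⟨?_, mem_univ _⟩
      rw [hbase]
      exact (hmemball i _ 5).1 hx
    have hfd : ∀ x : Cn (b + kk), fderiv ℂ (fun y : Cn (b + kk) => y - ptK (c i) 0) x =
        ContinuousLinearMap.id ℂ _ := by
      intro x
      rw [fderiv_sub_const]
      exact fderiv_fun_id
    have hdet : ∀ x : Cn (b + kk),
        (fderiv ℂ (fun y : Cn (b + kk) => y - ptK (c i) 0) x).det = 1 := by
      intro x
      rw [hfd]
      simp [ContinuousLinearMap.det]
    have hdiff : DifferentiableOn ℂ (fun y : Cn (b + kk) => y - ptK (c i) 0)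
        (tubeK kk (ball (c i) 5)) := (differentiable_id.sub_const _).differentiableOn
    obtain ⟨h1, h2⟩ := (hPAR hD).1 _ (tubeK kk (ball (c i) 5)) (E i)
      (fun y : Cn (b + kk) => y - ptK (c i) 0) (hE1 i) hop hdiff hmaps
      (fun x _ => by rw [hdet]; exact one_ne_zero)
    have h3 := (hPMB hD q hF.herm hF.inv).2 _ (tubeK kk (ball (c i) 5)) (E i)
      (fun y : Cn (b + kk) => y - ptK (c i) 0) (hE1 i) hop hdiff hmaps
      (fun x _ => by rw [hdet]; exact one_ne_zero)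
    refine ⟨h1, fun x hx => ?_, fun x hx => ?_⟩
    · rw [(h2 x hx).2, hdet, hE2 i _ (hmaps hx), hbase]
      simp
    · have h4 : pm (b + kk) q (E i ∘ fun y => y - ptK (c i) 0) x =
          pm (b + kk) q (E i) (x - ptK (c i) 0) := by
        ext i' j'
        have h5 := h3 x hx (Pi.single i' 1) (Pi.single j' 1)
        rw [hfd] at h5
        simp only [ContinuousLinearMap.id_apply] at h5
        rw [hermi_single, hermi_single] at h5
        exact h5
      have h6 := hE4 i _ (hmaps hx)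
      rw [hbase] at h6
      rw [← h6]
      unfold gm
      rw [h4]
  have hD5 : IsOpen (tubeK kk (Bd c 5)) := isOpen_tubeK (isOpen_iUnion fun i => isOpen_ball)
  refine ⟨k, c, EE, Φ, HH, hk, by norm_num, hsep, ?_, ?_, ?_, ?_, ?_, ?_, ?_, ?_⟩
  · refine par_local hD5 (fun x hx => ?_)
    obtain ⟨i, hi⟩ := mem_iUnion.1 hx
    exact ⟨_, _, (hsh i).1, hi, hEEloc x i hi⟩
  · intro z hz
    obtain ⟨i, hi⟩ := mem_iUnion.1 hz
    have h1 : ContDiffAt ℝ ∞ (Ψ i) (z - c i) :=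
      (h0 i).smP.contDiffAt (isOpen_ball.mem_nhds ((hmemball i z 5).1 hi))
    have h2 : ContDiffAt ℝ ∞ (fun y => Ψ i (y - c i)) z :=
      ContDiffAt.comp z h1 (contDiffAt_id.sub contDiffAt_const)
    exact (h2.congr_of_eventuallyEq (hΦloc z i hi)).contDiffWithinAt
  · intro z hz e he
    obtain ⟨i, hi⟩ := mem_iUnion.1 hz
    rw [lev_congr (hΦloc z i hi), lev_shift]
    exact (h0 i).pos _ ((hmemball i z 5).1 hi) e he
  · intro x hx
    obtain ⟨i, hi⟩ := mem_iUnion.1 hx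
    rw [lpot_congr v (hEEloc x i hi), (hsh i).2.1 x hi, (hΦloc _ i hi).eq_of_nhds]
  · intro i' j' z hz
    obtain ⟨i, hi⟩ := mem_iUnion.1 hz
    have h1 : ContDiffAt ℝ ∞ (fun z => Hf i z i' j') (z - c i) :=
      ((h0 i).smH i' j').contDiffAt (isOpen_ball.mem_nhds ((hmemball i z 5).1 hi))
    have h2 : ContDiffAt ℝ ∞ (fun y => Hf i (y - c i) i' j') z :=
      ContDiffAt.comp z h1 (contDiffAt_id.sub contDiffAt_const)
    have h3 : (fun y => HH y i' j') =ᶠ[𝓝 z] fun y => Hf i (y - c i) i' j' := by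
      filter_upwards [hHloc z i hi] with y hy
      rw [hy]
    exact (h2.congr_of_eventuallyEq h3).contDiffWithinAt
  · intro z hz
    obtain ⟨i, hi⟩ := mem_iUnion.1 hz
    rw [(hHloc z i hi).eq_of_nhds]
    exact (h0 i).posH _ ((hmemball i z 5).1 hi)
  · intro x hx
    obtain ⟨i, hi⟩ := mem_iUnion.1 hx
    rw [gm_congr q (hEEloc x i hi), (hsh i).2.2 x hi, (hHloc _ i hi).eq_of_nhds]
  · intro p
    obtain ⟨γ, i, x, hx, hp⟩ := hcov p
    have hz1 : base x + c i ∈ ball (c i) 1 := by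
      rw [hmemball, add_sub_cancel_right]
      exact hx.1
    have hz5 : base x + c i ∈ ball (c i) 5 :=
      ball_subset_ball (by norm_num) hz1
    refine ⟨γ, base x + c i, mem_iUnion.2 ⟨i, hz1⟩, fib x, mem_ball_zero_iff.1 hx.2, ?_⟩
    rw [hp]
    have h1 : EE (ptK (base x + c i) (fib x)) = E i (ptK (base x + c i) (fib x) - ptK (c i) 0) := by
      have := (hEEloc (ptK (base x + c i) (fib x)) i (by rw [base_ptK]; exact hz5)).eq_of_nhds
      rw [this]
      rfl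
    have h2 : ptK (base x + c i) (fib x) - ptK (c i) 0 = x := by
      rw [← ptK_base_fib (ptK (base x + c i) (fib x) - ptK (c i) 0), hbase, hfib, base_ptK,
        fib_ptK, add_sub_cancel_right, ptK_base_fib]
    rw [h1, h2]
    refine (hE3 i ⟨?_, ?_⟩).symm
    · exact ball_subset_ball (by norm_num) hx.1
    · exact ball_subset_ball (by norm_num) hx.2

end Pool.Agent.Helper80.RK
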