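import Pool.Agent.Helper95.RK.GoalsC
import Pool.Agent.Helper95.RK.Basics

/-! # Packet LOCPK: every arrow belongs to a map of the pseudogroup -/

open Complex Metric Set Filter Topology MeasureTheory
open scoped ContDiff ComplexConjugate ComplexOrder Manifold Matrix

namespace Pool.Agent.Helper80.RK

open Pool.Agent.Helper10.SP Pool.Agent.Helper95.RK
open Pool.Agent.Helper95.Lin Pool.Agent.Helper16.Abund Pool.Agent.Helper92.Orb

universe u v

lemma isLinearMap_base (b k : ℕ) : IsLinearMap ℝ (base : Cn (b + k) → Cn b) :=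
  ⟨fun _ _ => rfl, fun _ _ => rfl⟩

lemma convex_tubeK {b k : ℕ} {U : Set (Cn b)} (hU : Convex ℝ U) : Convex ℝ (tubeK k U) :=
  hU.is_linear_preimage (isLinearMap_base b k)

lemma isOpen_Bd {b N : ℕ} (c : Fin N → Cn b) (r : ℝ) : IsOpen (Bd c r) :=
  isOpen_iUnion fun _ => isOpen_ball

lemma differentiable_base {b k : ℕ} : Differentiable ℂ (base : Cn (b + k) → Cn b) :=
  (bsL b k).differentiable

lemma differentiable_fib {b k : ℕ} : Differentiable ℂ (fib : Cn (b + k) → Cn k) :=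
  (fbL b k).differentiable

lemma differentiableOn_ptK {n b k : ℕ} {V : Set (Cn n)} {G : Cn n → Cn b} {h : Cn n → Cn k}
    (hG : DifferentiableOn ℂ G V) (hh : DifferentiableOn ℂ h V) :
    DifferentiableOn ℂ (fun p => ptK (G p) (h p)) V :=
  (ptL b k).differentiable.comp_differentiableOn (hG.prodMk hh)

lemma differentiableOn_mulVec {n k : ℕ} {V : Set (Cn n)} {A : Cn n → Matrix (Fin k) (Fin k) ℂ}
    {h : Cn n → Cn k} (hA : ∀ i j, DifferentiableOn ℂ (fun p => A p i j) V)
    (hh : DifferentiableOn ℂ h V) : DifferentiableOn ℂ (fun p => A p *ᵥ h p) V := by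
  rw [differentiableOn_pi] at hh ⊢
  intro i
  have : (fun p => (A p *ᵥ h p) i) = fun p => ∑ j, A p i j * h p j := rfl
  rw [this]
  exact DifferentiableOn.fun_sum fun j _ => (hA i j).mul (hh j)

/-- the map `(z, w) ↦ (g z, A z w + β z)` is holomorphic -/
lemma differentiableOn_map {b k : ℕ} {U : Set (Cn b)} {t : TriK b k} (ht : t.HolOn U) :
    DifferentiableOn ℂ t.map (tubeK k U) := by
  have hb : DifferentiableOn ℂ (base : Cn (b + k) → Cn b) (tubeK k U) :=
    differentiable_base.differentiableOn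
  have hm : MapsTo (base : Cn (b + k) → Cn b) (tubeK k U) U := fun _ h => h
  exact differentiableOn_ptK (ht.1.comp hb hm)
    ((differentiableOn_mulVec (fun i j => (ht.2.1 i j).comp hb hm)
      differentiable_fib.differentiableOn).add (ht.2.2.comp hb hm))

lemma LMapK.spec {b k N : ℕ} {G : Type u} {M : Type v} [Group G] [MulAction G M]
    [TopologicalSpace M] [ChartedSpace (Fin (b + k) → ℂ) M] {v : M → ℝ}
    {q : M → Matrix (Fin (b + k)) (Fin (b + k)) ℂ} {c : Fin N → Cn b}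
    {R : ℝ} {E : Cn (b + k) → M} {Φ : Cn b → ℝ} {Hf : Cn b → Matrix (Fin k) (Fin k) ℂ}
    (hL : LMapK G v q c R E Φ Hf) : SpecK v q (Bd c R) univ E Φ Hf := by
  refine ⟨?_, hL.smooth, hL.pos, ?_, hL.smH, hL.posH, ?_⟩
  · rw [prodK_univ]
    exact hL.par
  · rw [prodK_univ]
    exact hL.pot
  · rw [prodK_univ]
    exact hL.leaf

theorem locpk (hPARB : S_PARBK.{u, v}) (hIDM : S_IDM.{v}) (hTRS : S_TRSK.{u, v}) :
    S_LOCPK.{u, v} := by
  intro b k N G M _ _ _ _ _ _ h q v hD hF c R E Φ Hf hL γ x y hR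
  obtain ⟨hx, hy, hxy⟩ := hR
  have hS := LMapK.spec hL
  obtain ⟨ρ, hρ, t, hU, -, hol, hyeq, hpr, hlast⟩ := hTRS hD hF (Bd c R) (Bd c R) univ univ E E
    Φ Φ Hf Hf (isOpen_Bd c R) (isOpen_Bd c R) isOpen_univ isOpen_univ hS hS γ x
    (by rw [prodK_univ]; exact hx) y (by rw [prodK_univ]; exact hy) hxy
  set V : Set (Cn (b + k)) := tubeK k (ball (base x) ρ) with hV
  have hVo : IsOpen V := isOpen_tubeK isOpen_ball
  have hVc : IsPreconnected V := (convex_tubeK (convex_ball (base x) ρ)).isPreconnected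
  have hVs : V ⊆ tubeK k (Bd c R) := fun p hp => hU hp
  have hf : HoloOn (b + k) (fun p => γ • E p) V := by
    have h1 := ((hPARB hD).2.1 γ (tubeK k (Bd c R)) E hL.par).1.1
    exact ⟨hVo, h1.2.mono hVs⟩
  have hT : DifferentiableOn ℂ t.map V := differentiableOn_map hol
  have hmT : MapsTo t.map V (tubeK k (Bd c R)) := by
    intro p hp
    show base (ptK _ _) ∈ Bd c R
    rw [base_ptK]
    exact (hpr (base p) hp).1
  have hf' : HoloOn (b + k) (fun p : Cn (b + k) => E (t.map p)) V :=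
    ⟨hVo, hL.par.1.2.comp hT.mdifferentiableOn hmT⟩
  have hev : (fun p => γ • E p) =ᶠ[𝓝 x] fun p : Cn (b + k) => E (t.map p) := by
    have e1 : ∀ᶠ p in 𝓝 x, base p ∈ ball (base x) ρ :=
      ((bsL b k).continuous.continuousAt (x := x)).eventually
        (isOpen_ball.mem_nhds (mem_ball_self hρ))
    have e2 : ∀ᶠ p in 𝓝 x, fib p ∈ ball (fib x) ρ :=
      ((fbL b k).continuous.continuousAt (x := x)).eventually
        (isOpen_ball.mem_nhds (mem_ball_self hρ))
    filter_upwards [e1, e2] with p h1 h2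
    have h3 := (hlast (base p) h1 (fib p) h2).2
    rw [ptK_base_fib] at h3
    exact h3
  have hEq := hIDM V _ _ hVc hf hf' x (mem_ball_self hρ) hev
  refine ⟨ρ, hρ, t, ⟨isOpen_ball, hU, hol, fun z hz => ⟨(hpr z hz).1, (hpr z hz).2.detA⟩, ?_⟩,
    hyeq⟩
  intro z hz w
  have hp : ptK z w ∈ V := by
    show base (ptK z w) ∈ ball (base x) ρ
    rw [base_ptK]
    exact hz
  have h4 := hEq hp
  have hm : t.map (ptK z w) = ptK (t.g z) (t.ap z w) := by
    unfold TriK.map
    rw [base_ptK, fib_ptK]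
  simp only [hm] at h4
  refine ⟨hVs hp, ?_, h4⟩
  have h5 := hmT hp
  rw [hm] at h5
  exact h5

end Pool.Agent.Helper80.RK
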