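import Pool.Agent.Helper10.RK.GoalsK
import Pool.Agent.Helper37.SP.SECT
import Pool.Agent.Helper95.RK.Basics

/-! # RK-SECTK: one weight for all points -/

open Complex Metric Set Filter Topology MeasureTheory
open scoped ContDiff ComplexConjugate ComplexOrder Manifold Matrix

namespace Pool.Agent.Helper80.RK

open Pool.Agent.Helper95.Lin Pool.Agent.Helper16.Abund Pool.Agent.Helper92.Orb
open Pool.Agent.Helper10.SP Pool.Agent.Helper95.RK Pool.Agent.Helper36.RK
open Pool.Agent.Helper10.RK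

universe u

theorem continuous_ptK_left {b k : ℕ} (w : Cn k) : Continuous fun z : Cn b => ptK z w := by
  refine continuous_pi fun i => ?_
  refine Fin.addCases (fun j => ?_) (fun j => ?_) i
  · simpa [ptK] using continuous_apply j
  · simpa [ptK] using continuous_const

theorem sectk (hX : S_XLIMK.{u}) (hF : S_FCONK.{u}) : S_SECTK.{u} := by
  classical
  intro b k N G _ c R Rel P Φ Hf C H hFE hDisc
  have hopen : IsOpen (tubeK k (Bd c 2)) := by
    have h1 : IsOpen (Bd c 2) := isOpen_iUnion fun _ => isOpen_ball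
    exact isOpen_tubeK h1
  have hex : ∀ z₀ : Cn b, ∃ (M : ℕ) (g : Cn (b + k) → ℂ), z₀ ∈ Bd c 2 → 1 ≤ M ∧
      Sec (tubeK k (Bd c 2)) Rel M g ∧ DifferentiableOn ℂ g (tubeK k (Bd c 2)) ∧
      g (ptK z₀ 0) ≠ 0 := by
    intro z₀
    by_cases hz : z₀ ∈ Bd c 2
    · obtain ⟨M, g, h⟩ := hX c R Rel P Φ Hf C H hFE hDisc z₀ hz
      exact ⟨M, g, fun _ => h⟩
    · exact ⟨1, 0, fun h => absurd h hz⟩
  choose M g hMg using hex
  have hK : IsCompact (⋃ i, closedBall (c i) (1 : ℝ)) :=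
    isCompact_iUnion fun i => isCompact_closedBall (c i) 1
  have hK2 : (⋃ i, closedBall (c i) (1 : ℝ)) ⊆ Bd c 2 :=
    iUnion_mono fun i => closedBall_subset_ball (by norm_num)
  have h1K : Bd c 1 ⊆ ⋃ i, closedBall (c i) (1 : ℝ) := iUnion_mono fun i => ball_subset_closedBall
  obtain ⟨t, ht, hcov⟩ := hK.elim_nhds_subcover (fun z₀ => {z | g z₀ (ptK z 0) ≠ 0})
    (fun z₀ hz₀ => by
      have hz2 := hK2 hz₀
      obtain ⟨-, -, hd, hne⟩ := hMg z₀ hz2
      have hmem : ptK z₀ (0 : Cn k) ∈ tubeK k (Bd c 2) := by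
        change base (ptK z₀ (0 : Cn k)) ∈ Bd c 2
        rw [base_ptK]; exact hz2
      have hc : ContinuousAt (g z₀) (ptK z₀ 0) :=
        hd.continuousOn.continuousAt (hopen.mem_nhds hmem)
      have hc2 : ContinuousAt (fun z => g z₀ (ptK z 0)) z₀ :=
        ContinuousAt.comp (f := fun z : Cn b => ptK z (0 : Cn k)) hc
          (continuous_ptK_left 0).continuousAt
      exact hc2.eventually_ne hne)
  refine ⟨∏ x ∈ t, M x, ?_, ?_⟩
  · exact Nat.one_le_iff_ne_zero.2 (Finset.prod_ne_zero_iff.2 fun x hx =>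
      Nat.one_le_iff_ne_zero.1 (hMg x (hK2 (ht x hx))).1)
  · intro z hz
    have hzK := hcov (h1K hz)
    obtain ⟨x, hx, hzx⟩ : ∃ x ∈ t, g x (ptK z 0) ≠ 0 := by simpa using hzK
    obtain ⟨-, hs, hd, -⟩ := hMg x (hK2 (ht x hx))
    refine ⟨fun y => g x y ^ (∏ x' ∈ t.erase x, M x'), ?_, hd.pow _, fun w => ?_⟩
    · rw [← Finset.mul_prod_erase t M hx]
      exact Pool.Agent.Helper37.SP.Sec.pow hs _
    · refine pow_ne_zero _ ?_
      rw [hF c R Rel P Φ Hf C H hFE hDisc (M x) (g x) hs hd z (hK2 (h1K hz)) w 0]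
      exact hzx

end Pool.Agent.Helper80.RK
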